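import Mathlib
import Pool.Agent.MVD.Stmts

set_option autoImplicit false

/-! Row FIN of the squad MVD: soundness of the finite check. -/

namespace Pool.Agent.MVD.H65

open Pool.Agent.MVD

namespace FinRow

theorem lookup_cons' (a b : ℕ) (v : List ℕ) (env : List (ℕ × List ℕ)) :
    ((b, v) :: env).lookup a = if a = b then some v else env.lookup a := by
  rw [List.lookup_cons]
  by_cases h : a = b
  · rw [if_pos h, h]
    simp
  · rw [if_neg h]
    have h1 : (a == b) = false := by
      rw [beq_eq_false_iff_ne]
      exact h
    rw [h1]

theorem fits_complete (φ : ℕ → List ℕ) : ∀ (u w : List ℕ) (env : List (ℕ × List ℕ))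
    (r : List ℕ), (∀ a v, env.lookup a = some v → φ a = v) → w = u.flatMap φ ++ r →
      ∃ env', (env', r) ∈ fits u w env ∧
        ∀ a, (a ∈ u ∨ (env.lookup a).isSome) → env'.lookup a = some (φ a) := by
  intro u
  induction u with
  | nil =>
    intro w env r hag hw
    refine ⟨env, ?_, ?_⟩
    · rw [fits]
      have : w = r := by simpa using hw
      rw [this]
      exact List.mem_singleton.2 rfl
    · rintro a (h | h)
      · exact absurd h (List.not_mem_nil)
      · obtain ⟨v, hv⟩ := Option.isSome_iff_exists.1 h
        rw [hv, hag a v hv]
  | cons a u ih =>
    intro w env r hag hw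
    rw [List.flatMap_cons, List.append_assoc] at hw
    cases hl : env.lookup a with
    | some v =>
      have hv := hag a v hl
      have hpre : v.isPrefixOf w = true := by
        rw [List.isPrefixOf_iff_prefix, hw, hv]
        exact List.prefix_append _ _
      have hdrop : w.drop v.length = u.flatMap φ ++ r := by
        rw [hw, hv, List.drop_left]
      obtain ⟨env', h1, h2⟩ := ih (w.drop v.length) env r hag hdrop
      refine ⟨env', ?_, ?_⟩
      · rw [fits, hl]
        change (env', r) ∈ (if v.isPrefixOf w then fits u (w.drop v.length) env else [])
        rw [if_pos hpre]
        exact h1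
      · rintro b (h | h)
        · rcases List.mem_cons.1 h with h | h
          · apply h2
            right
            rw [h, hl]
            rfl
          · exact h2 b (Or.inl h)
        · exact h2 b (Or.inr h)
    | none =>
      have hdrop : w.drop (φ a).length = u.flatMap φ ++ r := by
        rw [hw, List.drop_left]
      have htake : w.take (φ a).length = φ a := by
        rw [hw, List.take_left]
      have hlen : (φ a).length < w.length + 1 := by
        rw [hw, List.length_append]
        omega
      have hag' : ∀ b v, ((a, w.take (φ a).length) :: env).lookup b = some v → φ b = v := by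
        intro b v hb
        rw [lookup_cons'] at hb
        by_cases hba : b = a
        · rw [if_pos hba, htake] at hb
          rw [hba]
          exact Option.some_injective _ hb
        · rw [if_neg hba] at hb
          exact hag b v hb
      obtain ⟨env', h1, h2⟩ := ih (w.drop (φ a).length) ((a, w.take (φ a).length) :: env) r
        hag' hdrop
      refine ⟨env', ?_, ?_⟩
      · rw [fits, hl]
        change (env', r) ∈ (List.range (w.length + 1)).flatMap
          (fun k => fits u (w.drop k) ((a, w.take k) :: env))
        rw [List.mem_flatMap]
        exact ⟨(φ a).length, List.mem_range.2 hlen, h1⟩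
      · rintro b (h | h)
        · rcases List.mem_cons.1 h with h | h
          · apply h2
            right
            rw [lookup_cons', if_pos h]
            rfl
          · exact h2 b (Or.inl h)
        · apply h2
          right
          rw [lookup_cons']
          by_cases hba : b = a
          · rw [if_pos hba]
            rfl
          · rw [if_neg hba]
            exact h

theorem flatMap_congr'' {l : List ℕ} {f g : ℕ → List ℕ} (h : ∀ c ∈ l, f c = g c) :
    l.flatMap f = l.flatMap g := by
  induction l with
  | nil => rfl
  | cons a l ih =>
    rw [List.flatMap_cons, List.flatMap_cons, h a (List.mem_cons_self ..),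
      ih (fun c hc => h c (List.mem_cons_of_mem _ hc))]

end FinRow

/-- **FIN** -/
theorem fin : FinStmt := by
  intro u v T hvu hchk φ M N hmem
  obtain ⟨env', h1, h2⟩ := FinRow.fits_complete φ u (u.flatMap φ ++ N) [] N
    (by intro a v h; simp at h) rfl
  unfold chkP at hchk
  rw [List.all_eq_true] at hchk
  have h3 := hchk _ hmem
  rw [List.all_eq_true] at h3
  have h4 := h3 M.length (List.mem_range.2 (by
    rw [List.length_append]
    omega))
  rw [List.all_eq_true, List.drop_left] at h4
  have h5 := h4 (env', N) h1
  rw [List.take_left, List.contains_iff_mem] at h5
  have h6 : appE env' v = v.flatMap φ := by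
    unfold appE
    apply FinRow.flatMap_congr''
    intro a ha
    rw [h2 a (Or.inl (hvu a ha))]
    rfl
  rw [h6] at h5
  exact h5

end Pool.Agent.MVD.H65
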